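import Mathlib

/-!
# Binomial coefficients along arithmetic progressions can miss a residue class

For every `c ≥ 1` and `p = 3` or `p = 5`, the binomial coefficient `C(4 c n, 2 c n)` is never
congruent to `2` modulo `p`.
-/

namespace Pool.Agent.Results.MP_859259_nt.ResidueTwoNeverOccurs

/-- Modulo `3` the central binomial coefficient `C(2m, m)` is `0` or `(-1)^m`. -/
theorem central_mod_three (m : ℕ) :
    (2 * m).choose m % 3 = 0 ∨ (2 * m).choose m % 3 = (if m % 2 = 0 then 1 else 2) := by
  induction m using Nat.strong_induction_on with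
  | _ m ih =>
    rcases Nat.eq_zero_or_pos m with h0 | hpos
    · subst h0; right; simp
    · have : Fact (Nat.Prime 3) := ⟨Nat.prime_three⟩
      have hL : (2 * m).choose m ≡
          (2 * m % 3).choose (m % 3) * (2 * m / 3).choose (m / 3) [MOD 3] :=
        Choose.choose_modEq_choose_mod_mul_choose_div_nat
      have hq := ih (m / 3) (Nat.div_lt_self hpos (by norm_num))
      have hd : m % 3 = 0 ∨ m % 3 = 1 ∨ m % 3 = 2 := by omega
      unfold Nat.ModEq at hL
      rcases hd with hd | hd | hd
      · have h1 : 2 * m % 3 = 0 := by omega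
        have h2 : 2 * m / 3 = 2 * (m / 3) := by omega
        have h3 : (m / 3) % 2 = m % 2 := by omega
        rw [h1, h2, hd] at hL
        rw [h3] at hq
        simp only [Nat.choose_self, one_mul] at hL
        rw [hL]; exact hq
      · have h1 : 2 * m % 3 = 2 := by omega
        have h2 : 2 * m / 3 = 2 * (m / 3) := by omega
        rw [h1, h2, hd] at hL
        have h4 : Nat.choose 2 1 = 2 := by decide
        rw [h4] at hL
        rw [hL]
        rcases hq with hq | hq
        · left; omega
        · right
          by_cases h5 : (m / 3) % 2 = 0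
          · rw [if_pos h5] at hq
            rw [if_neg (by omega)]; omega
          · rw [if_neg h5] at hq
            rw [if_pos (by omega)]; omega
      · have h1 : 2 * m % 3 = 1 := by omega
        rw [h1, hd] at hL
        have h4 : Nat.choose 1 2 = 0 := by decide
        rw [h4, zero_mul] at hL
        left; omega

/-- Modulo `5` the central binomial coefficient `C(2m, m)` is `0`, or `± 1` when `m` is even, or
`± 2` when `m` is odd. -/
theorem central_mod_five (m : ℕ) :
    (2 * m).choose m % 5 = 0 ∨
      (m % 2 = 0 ∧ ((2 * m).choose m % 5 = 1 ∨ (2 * m).choose m % 5 = 4)) ∨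
      (m % 2 = 1 ∧ ((2 * m).choose m % 5 = 2 ∨ (2 * m).choose m % 5 = 3)) := by
  induction m using Nat.strong_induction_on with
  | _ m ih =>
    rcases Nat.eq_zero_or_pos m with h0 | hpos
    · subst h0; right; left; simp
    · have : Fact (Nat.Prime 5) := ⟨Nat.prime_five⟩
      have hL : (2 * m).choose m ≡
          (2 * m % 5).choose (m % 5) * (2 * m / 5).choose (m / 5) [MOD 5] :=
        Choose.choose_modEq_choose_mod_mul_choose_div_nat
      have hq := ih (m / 5) (Nat.div_lt_self hpos (by norm_num))
      have hd : m % 5 = 0 ∨ m % 5 = 1 ∨ m % 5 = 2 ∨ m % 5 = 3 ∨ m % 5 = 4 := by omega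
      unfold Nat.ModEq at hL
      rcases hd with hd | hd | hd | hd | hd
      · have h1 : 2 * m % 5 = 0 := by omega
        have h2 : 2 * m / 5 = 2 * (m / 5) := by omega
        rw [h1, h2, hd] at hL
        simp only [Nat.choose_self, one_mul] at hL
        omega
      · have h1 : 2 * m % 5 = 2 := by omega
        have h2 : 2 * m / 5 = 2 * (m / 5) := by omega
        rw [h1, h2, hd] at hL
        have h4 : Nat.choose 2 1 = 2 := by decide
        rw [h4] at hL
        omega
      · have h1 : 2 * m % 5 = 4 := by omega
        have h2 : 2 * m / 5 = 2 * (m / 5) := by omega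
        rw [h1, h2, hd] at hL
        have h4 : Nat.choose 4 2 = 6 := by decide
        rw [h4] at hL
        omega
      · have h1 : 2 * m % 5 = 1 := by omega
        rw [h1, hd] at hL
        have h4 : Nat.choose 1 3 = 0 := by decide
        rw [h4, zero_mul] at hL
        left; omega
      · have h1 : 2 * m % 5 = 3 := by omega
        rw [h1, hd] at hL
        have h4 : Nat.choose 3 4 = 0 := by decide
        rw [h4, zero_mul] at hL
        left; omega

/-- For all positive integers `c` and `n` and `p = 3` or `p = 5`,
the binomial coefficient `C(4 c n, 2 c n)` is not congruent to `2` modulo `p`. -/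
theorem result (c n p : ℕ) (_hc : 0 < c) (_hn : 0 < n) (hp : p = 3 ∨ p = 5) :
    ¬ (4 * c * n).choose (2 * c * n) ≡ 2 [MOD p] := by
  have e : 4 * c * n = 2 * (2 * c * n) := by ring
  have ev : (2 * c * n) % 2 = 0 := by
    rw [mul_assoc]; exact Nat.mul_mod_right 2 _
  rw [e]
  intro h
  unfold Nat.ModEq at h
  rcases hp with hp | hp
  · subst hp
    have h3 := central_mod_three (2 * c * n)
    rw [if_pos ev] at h3
    omega
  · subst hp
    have h5 := central_mod_five (2 * c * n)
    omega

end Pool.Agent.Results.MP_859259_nt.ResidueTwoNeverOccurs
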